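import Mathlib
import Pool.Agent.R285.PickExt

/-!
# Complete Pick pairs are stable under multiplication of the second kernel
-/

set_option autoImplicit false

namespace Pool.Agent.Results.MP_1a2443_an.ProductStability

open scoped InnerProductSpace ComplexOrder ComplexConjugate
open Matrix Pool.Agent.H770R3.Shim Pool.Agent.Results.MP_e3a8c8_an.ShimorinCertificates
open Pool.Agent.R285.PickExt

universe u

variable {X : Type u}

/-- Schur product theorem on arbitrary index sets -/
lemma psd_hadamard {p g : Matrix X X ℂ} (hp : p.PosSemidef) (hg : g.PosSemidef) :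
    (p ⊙ g).PosSemidef := by
  refine psd_of_sum ?_ fun F c => ?_
  · intro x y
    simp only [Matrix.hadamard_apply, map_mul, psd_herm hp, psd_herm hg]
  · have h1 := (hp.submatrix (fun i : F => (i : X))).hadamard (hg.submatrix (fun i : F => (i : X)))
    have h2 := psd_sum h1 Finset.univ (fun i : F => c i)
    have e : (∑ i : F, ∑ j : F, conj (c i) * ((p.submatrix (fun i : F => (i : X))
        (fun i : F => (i : X))) ⊙ (g.submatrix (fun i : F => (i : X)) (fun i : F => (i : X)))) i j
          * c j) = ∑ i ∈ F, ∑ j ∈ F, conj (c i) * (p ⊙ g) i j * c j := by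
      rw [← Finset.sum_coe_sort F (fun i => ∑ j ∈ F, conj (c i) * (p ⊙ g) i j * c j)]
      refine Finset.sum_congr rfl fun i _ => ?_
      rw [← Finset.sum_coe_sort F (fun j => conj (c i) * (p ⊙ g) i j * c j)]
      rfl
    rw [e] at h2
    exact h2

/-- the pointwise product of two kernels -/
noncomputable def mulKernel (l h : Kernel X) : Kernel X := ⟨l.fn ⊙ h.fn, psd_hadamard l.psd h.psd⟩

/-- the rank-one kernel `k(x,z) k(z,y) / k(z,z)` -/
lemma psd_rankone (k : Kernel X) (z : X) :
    (Matrix.of fun x y => k.fn x z * k.fn z y / k.fn z z : Matrix X X ℂ).PosSemidef := by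
  have hd : k.fn z z = ((k.fn z z).re : ℂ) := psd_diag_eq k.psd z
  refine psd_of_sum ?_ fun F c => ?_
  · intro x y
    simp only [Matrix.of_apply, map_div₀, map_mul, psd_herm k.psd]
    ring
  · have e : (∑ i ∈ F, ∑ j ∈ F, conj (c i) *
        (Matrix.of fun x y => k.fn x z * k.fn z y / k.fn z z : Matrix X X ℂ) i j * c j) =
        ((Complex.normSq (∑ j ∈ F, k.fn z j * c j) / (k.fn z z).re : ℝ) : ℂ) := by
      rw [Complex.ofReal_div, ← hd, Complex.normSq_eq_conj_mul_self, map_sum, Finset.sum_mul_sum,
        Finset.sum_div]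
      refine Finset.sum_congr rfl fun i _ => ?_
      rw [Finset.sum_div]
      refine Finset.sum_congr rfl fun j _ => ?_
      simp only [Matrix.of_apply, map_mul, psd_herm k.psd]
      ring
    rw [e, Complex.ofReal_re]
    exact div_nonneg (Complex.normSq_nonneg _) (psd_diag_re k.psd z)

/-- the reduced kernel is a kernel -/
lemma psd_reduced (k : Kernel X) (z : X) : (reduced k z).PosSemidef := by
  classical
  have e1 : reduced k z = red k.fn z := rfl
  rw [e1]
  refine psd_of_sum (fun x y => red_herm k.psd z x y) fun F c => ?_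
  set f : X → E 1 := fun i => WithLp.toLp 2 (fun _ => c i) with hf
  have key : ∀ (g : Matrix X X ℂ) (G : Finset X) (d : X → E 1),
      Q g G d = (∑ i ∈ G, ∑ j ∈ G, conj (d i 0) * g i j * d j 0).re := by
    intro g G d
    unfold Q
    congr 1
    refine Finset.sum_congr rfl fun i _ => Finset.sum_congr rfl fun j _ => ?_
    rw [PiLp.inner_apply]
    simp only [Fin.isValue, Finset.univ_unique, Fin.default_eq_zero, Finset.sum_singleton,
      RCLike.inner_apply]
    ring
  -- the form on `insert z (F \ {z})` with an optimal value at `z`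
  set F' := F.erase z with hF'
  have hz : z ∉ F' := by rw [hF']; exact Finset.notMem_erase z F
  set f' : X → E 1 := Function.update f z (-∑ j ∈ F', (k.fn z j / k.fn z z) • f j) with hf'
  have h1 := Q_nonneg k.psd (insert z F') f'
  rw [Q_insert k.psd hz] at h1
  have h2 : f' z + ∑ j ∈ F', (k.fn z j / k.fn z z) • f' j = 0 := by
    have : ∑ j ∈ F', (k.fn z j / k.fn z z) • f' j = ∑ j ∈ F', (k.fn z j / k.fn z z) • f j :=
      Finset.sum_congr rfl fun j hj => by
        rw [hf', Function.update_of_ne (show j ≠ z from fun e => hz (e ▸ hj))]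
    rw [this, hf', Function.update_self]
    exact neg_add_cancel _
  rw [h2, norm_zero] at h1
  have h3 : Q (red k.fn z) F' f' = Q (red k.fn z) F' f :=
    Q_congr _ fun i hi => by rw [hf', Function.update_of_ne (show i ≠ z from fun e => hz (e ▸ hi))]
  rw [h3, key] at h1
  have h4 : (∑ i ∈ F, ∑ j ∈ F, conj (c i) * red k.fn z i j * c j) =
      ∑ i ∈ F', ∑ j ∈ F', conj (f i 0) * red k.fn z i j * f j 0 := by
    rw [hF', ← Finset.sum_subset (Finset.erase_subset z F)]
    · refine Finset.sum_congr rfl fun i hi => ?_
      rw [← Finset.sum_subset (Finset.erase_subset z F)]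
      intro j hj hj'
      have : j = z := by
        by_contra hne
        exact hj' (Finset.mem_erase.2 ⟨hne, hj⟩)
      rw [this, red_zero_col k.psd]
      ring
    · intro i hi hi'
      have : i = z := by
        by_contra hne
        exact hi' (Finset.mem_erase.2 ⟨hne, hi⟩)
      refine Finset.sum_eq_zero fun j _ => ?_
      rw [this, red_zero_row k.psd]
      ring
  rw [h4]
  have h5 : (k.fn z z).re * (0 : ℝ) ^ 2 = 0 := by ring
  rw [h5, add_zero] at h1
  exact h1

/-- A Shimorin certificate of `(k, l)` is one of `(k, l h)`. -/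
theorem certificate_mul {k l h : Kernel X} (hc : HasShimorinCertificate k l) :
    HasShimorinCertificate k (mulKernel l h) := by
  obtain ⟨p, hp⟩ := hc
  refine ⟨p, fun z => ⟨?_, (hp z).2⟩⟩
  have h1 : ((reduced l z - (p z).fn ⊙ l.fn) ⊙ h.fn).PosSemidef :=
    psd_hadamard (hp z).1 h.psd
  have h2 : ((Matrix.of fun x y => l.fn x z * l.fn z y / l.fn z z : Matrix X X ℂ) ⊙
      reduced h z).PosSemidef := psd_hadamard (psd_rankone l z) (psd_reduced h z)
  have e : reduced (mulKernel l h) z - (p z).fn ⊙ (mulKernel l h).fn =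
      (reduced l z - (p z).fn ⊙ l.fn) ⊙ h.fn +
      (Matrix.of fun x y => l.fn x z * l.fn z y / l.fn z z : Matrix X X ℂ) ⊙ reduced h z := by
    ext x y
    simp only [reduced, mulKernel, Matrix.sub_apply, Matrix.add_apply, Matrix.hadamard_apply,
      Matrix.of_apply]
    have : l.fn x z * h.fn x z * (l.fn z y * h.fn z y) / (l.fn z z * h.fn z z) =
        (l.fn x z * l.fn z y / l.fn z z) * (h.fn x z * h.fn z y / h.fn z z) := by
      rw [div_mul_div_comm]
      ring
    rw [this]
    ring
  rw [e]
  exact h1.add h2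

/-- **Positive answer to Q1**: if `(k, l)` is a complete Pick pair of kernels on `X` (nonvanishing
on the diagonal) and `h` is any kernel on `X`, then `(k, l h)` is a complete Pick pair. For `k`
and `l` it is enough that `k(x,x) = 0` whenever `l(x,x) = 0`. -/
theorem result :
    (∀ (X : Type u) (k l h : Kernel X), (∀ x, k.fn x x ≠ 0) → (∀ x, l.fn x x ≠ 0) →
      (∀ x, h.fn x x ≠ 0) → IsCPPair k l → IsCPPair k (mulKernel l h)) ∧
    (∀ (X : Type u) (k l h : Kernel X), (∀ x, l.fn x x = 0 → k.fn x x = 0) →
      IsCPPair k l → IsCPPair k (mulKernel l h)) := by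
  have key : ∀ (X : Type u) (k l h : Kernel X), (∀ x, l.fn x x = 0 → k.fn x x = 0) →
      IsCPPair k l → IsCPPair k (mulKernel l h) := fun X k l h h0 hcp =>
    cp_of_certificate (certificate_mul (certificate_of_cp k l h0 hcp))
  exact ⟨fun X k l h _ hl _ hcp => key X k l h (fun x hx => absurd hx (hl x)) hcp, key⟩

end Pool.Agent.Results.MP_1a2443_an.ProductStability
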